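import Pool.Agent.NH83.EP.Alg
import Pool.Agent.Q217.MZ.PrefixPoly
import Pool.Agent.Q217.MZ.DirPi

/-!
# Polynomials in the symmetric sums: exponential heights (helper83)
-/

set_option autoImplicit false

namespace Pool.Agent.NH83.EP

open Finset Filter Topology
open Pool.Agent.TH507.WD (mz hr)
open Pool.Agent.TH507.WG (HP OK ar st)
open Pool.Agent.Y760.PZ (LM)
open Pool.Agent.Q217.MZ (StF StF_mz StI StF_of_StI words_w LM_pi_sq aeval_sum mz_zr mz_two_val ex)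

/-! ### Euler's relations -/

lemma real_euler (j : ℕ) (hj : 1 ≤ j) : ∃ r : ℚ, mz [2 * j] = r * mz [2] ^ j := by
  have h1 := (hasSum_zeta_nat (show j ≠ 0 by omega)).tsum_eq
  have h2 : mz [2 * j] = ∑' n : ℕ, 1 / (n : ℝ) ^ (2 * j) := by
    rw [mz_zr, Pool.Agent.H337R2.zr]
    have h3 : Summable fun n : ℕ => 1 / (n : ℝ) ^ (2 * j) := (hasSum_zeta_nat (show j ≠ 0 by omega)).summable
    rw [h3.tsum_eq_zero_add]
    have h4 : (0 : ℝ) ^ (2 * j) = 0 := zero_pow (by omega)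
    simp [h4]
  refine ⟨(-1 : ℚ) ^ (j + 1) * 2 ^ (2 * j - 1) * bernoulli (2 * j) / (2 * j).factorial * 6 ^ j, ?_⟩
  rw [h2, h1, mz_two_val, div_pow]
  push_cast
  rw [← pow_mul]
  field_simp

/-- Euler's numbers `ζ(2 j) / ζ(2) ^ j` -/
noncomputable def er (j : ℕ) : ℚ := if h : 1 ≤ j then (real_euler j h).choose else 0

lemma er_spec (j : ℕ) (hj : 1 ≤ j) : mz [2 * j] = er j * mz [2] ^ j := by
  rw [er, dif_pos hj]
  exact (real_euler j hj).choose_spec

lemma EF_mz {n : ℕ} (hn : 2 ≤ n) : EF er fun v => mz (ar n v) where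
  one := (StF_mz hn).one
  mul := (StF_mz hn).mul
  euler := fun j hj => by
    have h1 := er_spec j hj
    simp only [ar, List.map_cons, List.map_nil, zero_mul, zero_add]
    rw [h1, Rat.smul_def]

/-! ### denominators -/

lemma common_den (s : Finset ℚ) : ∃ d : ℕ, 0 < d ∧ ∀ x ∈ s, ∃ z : ℤ, (z : ℚ) = d * x := by
  classical
  induction s using Finset.induction_on with
  | empty => exact ⟨1, one_pos, fun x hx => absurd hx (notMem_empty x)⟩
  | insert a s _ ih =>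
    obtain ⟨d, hd, h⟩ := ih
    refine ⟨d * a.den, Nat.mul_pos hd a.den_pos, fun x hx => ?_⟩
    rcases mem_insert.1 hx with rfl | hx
    · refine ⟨d * x.num, ?_⟩
      push_cast
      rw [mul_assoc, Rat.den_mul_eq_num]
    · obtain ⟨z, hz⟩ := h x hx
      refine ⟨z * a.den, ?_⟩
      push_cast
      rw [hz]
      ring

/-! ### the main estimate -/

theorem main {k : ℕ} (D : ℕ) (w : Fin k → List (ℕ × ℕ) × List (ℕ × ℕ)) (hw : ∀ i, Good (w i)) :
    ∃ B C : ℝ, 1 < B ∧ 1 < C ∧ ∃ n0 : ℕ, ∀ n, n0 ≤ n → ∀ f : MvPolynomial (Fin k) ℤ, f.totalDegree ≤ D →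
      (∀ s, |((f.coeff s : ℤ) : ℝ)| ≤ C ^ n) →
      |MvPolynomial.aeval (fun i => sy (fun v => mz (ar n v)) (w i)) f| ≤ (B ^ n)⁻¹ →
      ∀ (A : Type) [CommRing A] [Algebra ℚ A] (F : List (ℕ × ℕ) → A), EF er F →
        MvPolynomial.aeval (fun i => sy F (w i)) f = 0 := by
  classical
  choose K hK1 hK2 using fun e : Fin k → Fin (D + 1) => rep er w hw (fun i => (e i : ℕ))
  obtain ⟨P0, hP0⟩ : ∃ P0 : Finset (ℕ × List (ℕ × ℕ)), P0 = univ.biUnion fun e => (K e).support := ⟨_, rfl⟩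
  obtain ⟨T, hT⟩ : ∃ T : ℕ, ∀ p ∈ P0, p.1 ≤ T := ⟨P0.sup Prod.fst, fun p hp => le_sup (f := Prod.fst) hp⟩
  obtain ⟨Λ, hΛ⟩ : ∃ Λ : Finset (List (ℕ × ℕ)), Λ = P0.image Prod.snd := ⟨_, rfl⟩
  have hΛ1 : ∀ v ∈ Λ, HP v ∧ OK v := by
    intro v hv
    rw [hΛ, mem_image] at hv
    obtain ⟨p, hp, rfl⟩ := hv
    rw [hP0, mem_biUnion] at hp
    obtain ⟨e, -, hp⟩ := hp
    exact hK1 e p (Finsupp.mem_support_iff.1 hp)
  obtain ⟨P, hP⟩ : ∃ P : Finset (ℕ × List (ℕ × ℕ)), P = range (T + 1) ×ˢ Λ := ⟨_, rfl⟩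
  have hKP : ∀ e, (K e).support ⊆ P := by
    intro e p hp
    have h1 : p ∈ P0 := by
      rw [hP0, mem_biUnion]
      exact ⟨e, mem_univ _, hp⟩
    rw [hP, mem_product, mem_range, hΛ]
    exact ⟨Nat.lt_succ_of_le (hT p h1), mem_image_of_mem _ h1⟩
  -- the value of a polynomial
  obtain ⟨q, hq⟩ : ∃ q : MvPolynomial (Fin k) ℤ → ℕ × List (ℕ × ℕ) → ℚ, q = fun f p =>
    ∑ e : Fin k → Fin (D + 1), ((f.coeff (ex e) : ℤ) : ℚ) * K e p := ⟨_, rfl⟩
  have hval : ∀ f : MvPolynomial (Fin k) ℤ, f.totalDegree ≤ D → ∀ (A : Type) [CommRing A] [Algebra ℚ A]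
      (F : List (ℕ × ℕ) → A), EF er F →
      MvPolynomial.aeval (fun i => sy F (w i)) f = ∑ p ∈ P, q f p • gen F p := by
    intro f hf A _ _ F hF
    rw [aeval_sum (fun _ => True) f hf (fun _ _ => trivial)]
    rw [← (Equiv.subtypeUnivEquiv (p := fun _ : Fin k → Fin (D + 1) => True) fun _ => trivial).symm.sum_comp]
    have h1 : ∀ e : Fin k → Fin (D + 1), ((f.coeff (ex e) : ℤ) : A) * ∏ i, sy F (w i) ^ (e i : ℕ) =
        ∑ p ∈ P, (((f.coeff (ex e) : ℤ) : ℚ) * K e p) • gen F p := by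
      intro e
      rw [hK2 e A F hF, Finsupp.sum_of_support_subset _ (hKP e) (fun p c => c • gen F p)
        (fun p _ => zero_smul _ _), mul_sum]
      refine sum_congr rfl fun p _ => ?_
      rw [mul_smul, ← zsmul_eq_mul, Int.cast_smul_eq_zsmul]
    simp only [Equiv.subtypeUnivEquiv_symm_apply]
    rw [sum_congr rfl fun e _ => h1 e, sum_comm]
    refine sum_congr rfl fun p _ => ?_
    rw [hq, ← sum_smul]
  -- the denominators
  obtain ⟨d, hd, hden⟩ := common_den (univ.biUnion fun e : Fin k → Fin (D + 1) =>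
    P.image fun p => K e p / 6 ^ p.1)
  have hden' : ∀ (e : Fin k → Fin (D + 1)) (p : ℕ × List (ℕ × ℕ)), ∃ z : ℤ, (z : ℚ) = d * (K e p / 6 ^ p.1) := by
    intro e p
    by_cases hp : p ∈ P
    · exact hden _ (mem_biUnion.2 ⟨e, mem_univ _, mem_image_of_mem _ hp⟩)
    · have h1 : K e p = 0 := by
        by_contra h
        exact hp (hKP e (Finsupp.mem_support_iff.2 h))
      exact ⟨0, by rw [h1]; simp⟩
  choose z hz using hden'
  obtain ⟨B, C1, hB, hC1, n1, hmain⟩ := words_w _ (LM_pi_sq T) Λ (fun v hv => (hΛ1 v hv).1) (fun v hv => (hΛ1 v hv).2)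
  -- the growth of the coefficients
  obtain ⟨S, hS⟩ : ∃ S : ℝ, S = 1 + ∑ e : Fin k → Fin (D + 1), ∑ p ∈ P, |(z e p : ℝ)| := ⟨_, rfl⟩
  obtain ⟨C, hC, hCC⟩ : ∃ C : ℝ, 1 < C ∧ C < C1 := exists_between hC1
  have hC0 : 0 < C := by linarith
  have hgrow : ∀ᶠ n : ℕ in atTop, S * C ^ n ≤ C1 ^ n := by
    have h1 : Tendsto (fun n : ℕ => (C1 / C) ^ n) atTop atTop :=
      tendsto_pow_atTop_atTop_of_one_lt ((one_lt_div hC0).2 hCC)
    filter_upwards [h1.eventually (eventually_ge_atTop S)] with n hn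
    rw [div_pow, le_div_iff₀ (pow_pos hC0 n)] at hn
    exact hn
  obtain ⟨n2, hn2⟩ := eventually_atTop.1 hgrow
  have hdR : (1 : ℝ) ≤ d := by exact_mod_cast hd
  refine ⟨B * d, C, by nlinarith, hC, n1 + n2 + 2, fun n hn f hf hfC hsmall A _ _ F hF => ?_⟩
  -- the integer coefficients
  obtain ⟨N, hN⟩ : ∃ N : ℕ × List (ℕ × ℕ) → ℤ, N = fun p => ∑ e : Fin k → Fin (D + 1), f.coeff (ex e) * z e p :=
    ⟨_, rfl⟩
  have hNq : ∀ p, (N p : ℚ) = d * (q f p / 6 ^ p.1) := by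
    intro p
    rw [hN, hq]
    push_cast
    rw [sum_div, mul_sum]
    refine sum_congr rfl fun e _ => ?_
    rw [hz]
    ring
  have hNR : ∀ p, (N p : ℝ) = d * ((q f p : ℝ) / 6 ^ p.1) := by
    intro p
    have := congrArg (fun x : ℚ => (x : ℝ)) (hNq p)
    push_cast at this
    exact this
  have hNb : ∀ v ∈ Λ, ∀ i : Fin (T + 1), |(N ((i : ℕ), v) : ℝ)| ≤ C1 ^ n := by
    intro v hv i
    refine le_trans ?_ (hn2 n (by omega))
    have hmem : ((i : ℕ), v) ∈ P := by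
      rw [hP, mem_product, mem_range]
      exact ⟨i.2, hv⟩
    rw [hN]
    push_cast
    calc |∑ e : Fin k → Fin (D + 1), ((f.coeff (ex e) : ℤ) : ℝ) * (z e ((i : ℕ), v) : ℝ)| ≤
        ∑ e : Fin k → Fin (D + 1), |((f.coeff (ex e) : ℤ) : ℝ) * (z e ((i : ℕ), v) : ℝ)| := abs_sum_le_sum_abs _ _
      _ ≤ ∑ e : Fin k → Fin (D + 1), C ^ n * ∑ p ∈ P, |(z e p : ℝ)| := by
        refine sum_le_sum fun e _ => ?_
        rw [abs_mul]
        exact mul_le_mul (hfC _) (single_le_sum (f := fun p => |(z e p : ℝ)|) (fun _ _ => abs_nonneg _) hmem)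
          (abs_nonneg _) (pow_pos hC0 n).le
      _ = (∑ e : Fin k → Fin (D + 1), ∑ p ∈ P, |(z e p : ℝ)|) * C ^ n := by rw [← mul_sum, mul_comm]
      _ ≤ S * C ^ n := mul_le_mul_of_nonneg_right (by rw [hS]; linarith) (pow_pos hC0 n).le
  -- the real value
  have hreal : (d : ℝ) * MvPolynomial.aeval (fun i => sy (fun v => mz (ar n v)) (w i)) f =
      ∑ v ∈ Λ, (∑ i : Fin (T + 1), (N ((i : ℕ), v) : ℝ) * (Real.pi ^ 2) ^ (i : ℕ)) * mz (ar n v) := by
    rw [hval f hf ℝ _ (EF_mz (show 2 ≤ n by omega)), hP, sum_product_right, mul_sum]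
    refine sum_congr rfl fun v _ => ?_
    rw [Fin.sum_univ_eq_sum_range (fun i => (N (i, v) : ℝ) * (Real.pi ^ 2) ^ i) (T + 1), sum_mul, mul_sum]
    refine sum_congr rfl fun i _ => ?_
    have e1 : ar n [((0 : ℕ), 2)] = [2] := by simp [ar]
    rw [hNR, gen, Rat.smul_def, e1, mz_two_val, div_pow]
    ring
  have hq0 : ∀ p ∈ P, q f p = 0 := by
    by_contra hcon
    push Not at hcon
    obtain ⟨p, hp, hqp⟩ := hcon
    rw [hP, mem_product, mem_range] at hp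
    have h1 := hmain n (by omega) (fun v i => N ((i : ℕ), v)) ⟨p.2, hp.2, ⟨p.1, hp.1⟩, fun h0 => by
      have h2 := hNq p
      have h3 : N p = 0 := h0
      rw [h3, Int.cast_zero] at h2
      have h4 : (d : ℚ) ≠ 0 := by exact_mod_cast hd.ne'
      have h5 : (6 : ℚ) ^ p.1 ≠ 0 := by positivity
      rcases mul_eq_zero.1 h2.symm with h6 | h6
      · exact h4 h6
      · rcases div_eq_zero_iff.1 h6 with h7 | h7
        · exact hqp h7
        · exact h5 h7⟩ hNb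
    rw [← hreal, abs_mul, abs_of_pos (by linarith : (0 : ℝ) < d)] at h1
    have hd0 : (0 : ℝ) < d := by linarith
    have hB0 : 0 < B := by linarith
    have h2 : (B ^ n)⁻¹ < d * ((B * d) ^ n)⁻¹ :=
      lt_of_lt_of_le h1 (mul_le_mul_of_nonneg_left hsmall hd0.le)
    have h3 : (d : ℝ) * ((B * d) ^ n)⁻¹ ≤ (B ^ n)⁻¹ := by
      rw [mul_pow, mul_inv, ← mul_assoc, mul_comm (d : ℝ), mul_assoc]
      refine mul_le_of_le_one_right (by positivity) ?_
      rw [← div_eq_mul_inv, div_le_one (by positivity)]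
      exact le_self_pow₀ hdR (by omega)
    linarith
  rw [hval f hf A F hF]
  exact sum_eq_zero fun p hp => by rw [hq0 p hp, zero_smul]

end Pool.Agent.NH83.EP
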