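import Mathlib
import Pool.Agent.Q217.MZ.Prefix

/-!
# Symmetric sums over constant letters in front of a pattern (helper83)

For a function `F` on patterns with the stuffle product and Euler's relations `F (2 j) = r_j F (2) ^ j`, the sum of
`F (t ++ v)` over the rearrangements `t` of a list of even constant letters, `v` a pattern whose first letter grows, is a
rational combination of products `F (2) ^ i * F (v')`, `v'` with a growing first letter.
-/

set_option autoImplicit false

namespace Pool.Agent.NH83.EP

open Finset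
open Pool.Agent.TH507.WG (HP OK ar st st_OK st_HP OK_cons)
open Pool.Agent.Q217.MZ (AdmW AdmW_of_HP)

universe u v

section perm

variable {α : Type} {A : Type u} [AddCommMonoid A]

/-- the sum over the insertions of a letter -/
def insS (x : α) : List α → (List α → A) → A
  | [], G => G [x]
  | b :: t, G => G (x :: b :: t) + insS x t fun s => G (b :: s)

/-- the sum over the rearrangements of a list -/
def permS : List α → (List α → A) → A
  | [], G => G []
  | x :: l, G => permS l fun t => insS x t G

/-- the sum over the positions at which a letter can be added to another one -/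
def mrgS [Add α] (x : α) : List α → (List α → A) → A
  | [], _ => 0
  | b :: t, G => G ((x + b) :: t) + mrgS x t fun s => G (b :: s)

lemma insS_eq (x : α) (t : List α) : ∀ G : List α → A, insS x t G = ((List.permutations'Aux x t).map G).sum := by
  induction t with
  | nil => intro G; simp [insS]
  | cons b t ih =>
    intro G
    rw [insS, ih, List.permutations'Aux]
    simp [List.map_map, Function.comp_def]

lemma permS_eq (l : List α) : ∀ G : List α → A, permS l G = ((List.permutations' l).map G).sum := by
  induction l with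
  | nil => intro G; simp [permS]
  | cons x l ih =>
    intro G
    rw [permS, ih, List.permutations']
    generalize List.permutations' l = L
    induction L with
    | nil => simp
    | cons t L ih2 =>
      rw [List.map_cons, List.sum_cons, ih2, List.flatMap_cons, List.map_append, List.sum_append, insS_eq]

lemma insS_add (x : α) (t : List α) : ∀ G H : List α → A, insS x t (fun s => G s + H s) = insS x t G + insS x t H := by
  induction t with
  | nil => intro G H; rfl
  | cons b t ih =>
    intro G H
    rw [insS, insS, insS, ih (fun s => G (b :: s)) (fun s => H (b :: s))]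
    exact add_add_add_comm _ _ _ _

lemma permS_add (l : List α) : ∀ G H : List α → A, permS l (fun s => G s + H s) = permS l G + permS l H := by
  induction l with
  | nil => intro G H; rfl
  | cons x l ih =>
    intro G H
    rw [permS, permS, permS, ← ih]
    congr 1
    funext t
    exact insS_add x t G H

lemma permS_zero (l : List α) : permS l (fun _ => (0 : A)) = 0 := by
  rw [permS_eq]
  simp

lemma mrgS_add [Add α] (x : α) (t : List α) : ∀ G H : List α → A,
    mrgS x t (fun s => G s + H s) = mrgS x t G + mrgS x t H := by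
  induction t with
  | nil => intro G H; simp [mrgS]
  | cons b t ih =>
    intro G H
    rw [mrgS, mrgS, mrgS, ih (fun s => G (b :: s)) (fun s => H (b :: s))]
    exact add_add_add_comm _ _ _ _

lemma ins_mrg [Add α] (b x : α) (t : List α) : ∀ G : List α → A,
    insS b t (fun t' => mrgS x t' G) = insS (x + b) t G + mrgS x t (fun s => insS b s G) := by
  induction t with
  | nil => intro G; simp [insS, mrgS]
  | cons c t ih =>
    intro G
    have h1 : insS b (c :: t) (fun t' => mrgS x t' G) = mrgS x (b :: c :: t) G +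
        insS b t (fun s => G ((x + c) :: s) + mrgS x s fun r => G (c :: r)) := rfl
    have h2 : mrgS x (b :: c :: t) G = G ((x + b) :: c :: t) +
        (G (b :: (x + c) :: t) + mrgS x t fun s => G (b :: c :: s)) := rfl
    have h3 : mrgS x (c :: t) (fun s => insS b s G) = (G (b :: (x + c) :: t) + insS b t fun s => G ((x + c) :: s)) +
        mrgS x t (fun s => G (b :: c :: s) + insS b s fun r => G (c :: r)) := rfl
    have h4 : insS (x + b) (c :: t) G = G ((x + b) :: c :: t) + insS (x + b) t fun s => G (c :: s) := rfl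
    rw [h1, h2, h3, h4, insS_add, ih (fun s => G (c :: s)), mrgS_add]
    abel

lemma perm_mrg [Add α] (x : α) (l : List α) : ∀ G : List α → A,
    permS l (fun t => mrgS x t G) = mrgS x l (fun s => permS s G) := by
  induction l with
  | nil => intro G; rfl
  | cons b l ih =>
    intro G
    have h1 : permS (b :: l) (fun t => mrgS x t G) = permS l (fun t => insS b t (fun t' => mrgS x t' G)) := rfl
    have h2 : mrgS x (b :: l) (fun s => permS s G) = permS ((x + b) :: l) G +
        mrgS x l (fun s => permS s (fun r => insS b r G)) := rfl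
    rw [h1, h2, ← ih (fun s => insS b s G)]
    simp only [ins_mrg]
    rw [permS_add]
    rfl

lemma permS_sum {β : Type} (l : List α) (L : List β) (G : List α → β → A) :
    permS l (fun t => (L.map (G t)).sum) = (L.map fun o => permS l fun t => G t o).sum := by
  induction L with
  | nil => simp [permS_zero]
  | cons o L ih =>
    simp only [List.map_cons, List.sum_cons]
    rw [permS_add, ih]

end perm

section stuffle

variable {A : Type u} [AddCommMonoid A]

/-- the sum over the words in the stuffle product of a letter and a word in which the letter comes after the first letter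
or is added to it -/
def tlS (x : ℕ × ℕ) : List (ℕ × ℕ) → (List (ℕ × ℕ) → A) → A
  | [], _ => 0
  | y :: v, G => G ((x + y) :: v) + ((st [x] v).map fun o => G (y :: o)).sum

lemma st_cons (x y : ℕ × ℕ) (v : List (ℕ × ℕ)) :
    st [x] (y :: v) = [x :: y :: v] ++ (st [x] v).map (y :: ·) ++ [(x + y) :: v] := by
  rw [st, st]
  simp [st]

lemma st_ins (x : ℕ × ℕ) (v t : List (ℕ × ℕ)) : ∀ G : List (ℕ × ℕ) → A, ((st [x] (t ++ v)).map G).sum =
    insS x t (fun s => G (s ++ v)) + mrgS x t (fun s => G (s ++ v)) + tlS x v (fun o => G (t ++ o)) := by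
  induction t with
  | nil =>
    intro G
    cases v with
    | nil => simp [st, insS, mrgS, tlS]
    | cons y v =>
      rw [List.nil_append, st_cons]
      simp only [insS, mrgS, tlS, List.map_append, List.sum_append, List.map_map, List.map_cons, List.map_nil,
        List.sum_cons, List.sum_nil, Function.comp_def, List.nil_append, List.cons_append]
      abel
  | cons b t ih =>
    intro G
    rw [List.cons_append, st_cons]
    simp only [List.map_append, List.sum_append, List.map_map, List.map_cons, List.map_nil,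
        List.sum_cons, List.sum_nil]
    have h1 : (((st [x] (t ++ v))).map (G ∘ (b :: ·))).sum = _ := ih (fun o => G (b :: o))
    rw [h1]
    simp only [insS, mrgS, List.cons_append]
    abel

lemma permS_tlS (x : ℕ × ℕ) (l v : List (ℕ × ℕ)) (G : List (ℕ × ℕ) → List (ℕ × ℕ) → A) :
    permS l (fun t => tlS x v (G t)) = tlS x v (fun o => permS l fun t => G t o) := by
  cases v with
  | nil => exact permS_zero l
  | cons y v =>
    simp only [tlS]
    rw [permS_add, permS_sum]

end stuffle

/-! ### functions with the stuffle product and Euler's relations -/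

/-- functions on patterns with values in a commutative `ℚ`-algebra, with the stuffle product and Euler's relations -/
structure EF (er : ℕ → ℚ) {A : Type u} [CommRing A] [Algebra ℚ A] (F : List (ℕ × ℕ) → A) : Prop where
  one : F [] = 1
  mul : ∀ l m, AdmW l → AdmW m → F l * F m = ((st l m).map F).sum
  euler : ∀ j, 1 ≤ j → F [(0, 2 * j)] = er j • F [(0, 2)] ^ j

/-- the basic products -/
def gen {A : Type u} [CommRing A] (F : List (ℕ × ℕ) → A) (p : ℕ × List (ℕ × ℕ)) : A := F [(0, 2)] ^ p.1 * F p.2

/-- the exponents and words of the basic products -/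
def GS : Set (ℕ × List (ℕ × ℕ)) := {p | HP p.2 ∧ OK p.2}

/-- the span of the basic products -/
def Sp {A : Type u} [CommRing A] [Algebra ℚ A] (F : List (ℕ × ℕ) → A) : Submodule ℚ A :=
  Submodule.span ℚ (gen F '' GS)

/-- even constant letters -/
def EvC (l : List (ℕ × ℕ)) : Prop := ∀ x ∈ l, x.1 = 0 ∧ Even x.2 ∧ 2 ≤ x.2

section

variable {er : ℕ → ℚ} {A : Type u} [CommRing A] [Algebra ℚ A] {F : List (ℕ × ℕ) → A}

lemma gen_mem {t : ℕ} {v : List (ℕ × ℕ)} (h1 : HP v) (h2 : OK v) : F [(0, 2)] ^ t * F v ∈ Sp F :=
  Submodule.subset_span ⟨(t, v), ⟨h1, h2⟩, rfl⟩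

lemma word_mem {v : List (ℕ × ℕ)} (h1 : HP v) (h2 : OK v) : F v ∈ Sp F := by
  have := gen_mem (F := F) (t := 0) h1 h2
  rwa [pow_zero, one_mul] at this

lemma one_mem (hF : EF er F) : (1 : A) ∈ Sp F := by
  rw [← hF.one]
  exact word_mem trivial (fun x hx => absurd hx List.not_mem_nil)

lemma pow_mul_mem (j : ℕ) {a : A} (ha : a ∈ Sp F) : F [(0, 2)] ^ j * a ∈ Sp F := by
  refine Submodule.span_induction (p := fun a _ => F [(0, 2)] ^ j * a ∈ Sp F) ?_ ?_ ?_ ?_ ha
  · rintro _ ⟨p, hp, rfl⟩
    rw [gen, ← mul_assoc, ← pow_add]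
    exact gen_mem hp.1 hp.2
  · rw [mul_zero]
    exact (Sp F).zero_mem
  · intro x y _ _ hx hy
    rw [mul_add]
    exact (Sp F).add_mem hx hy
  · intro c x _ hx
    rw [mul_smul_comm]
    exact (Sp F).smul_mem _ hx

lemma list_mem {β : Type} (L : List β) (G : β → A) (h : ∀ b ∈ L, G b ∈ Sp F) : (L.map G).sum ∈ Sp F := by
  induction L with
  | nil =>
    rw [List.map_nil, List.sum_nil]
    exact (Sp F).zero_mem
  | cons b L ih =>
    rw [List.map_cons, List.sum_cons]
    exact (Sp F).add_mem (h b List.mem_cons_self) (ih fun c hc => h c (List.mem_cons_of_mem _ hc))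

lemma mul_mem (hF : EF er F) {a b : A} (ha : a ∈ Sp F) (hb : b ∈ Sp F) : a * b ∈ Sp F := by
  refine Submodule.span_induction (p := fun a _ => a * b ∈ Sp F) ?_ ?_ ?_ ?_ ha
  · rintro _ ⟨p, hp, rfl⟩
    rw [gen, mul_assoc]
    refine pow_mul_mem _ ?_
    refine Submodule.span_induction (p := fun b _ => F p.2 * b ∈ Sp F) ?_ ?_ ?_ ?_ hb
    · rintro _ ⟨q, hq, rfl⟩
      rw [gen, mul_left_comm, hF.mul _ _ (AdmW_of_HP hp.1 hp.2) (AdmW_of_HP hq.1 hq.2)]
      refine pow_mul_mem _ (list_mem _ _ fun o ho => ?_)
      exact word_mem (st_HP _ _ hp.1 hq.1 o ho) (st_OK _ _ hp.2 hq.2 o ho)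
    · rw [mul_zero]
      exact (Sp F).zero_mem
    · intro x y _ _ hx hy
      rw [mul_add]
      exact (Sp F).add_mem hx hy
    · intro c x _ hx
      rw [mul_smul_comm]
      exact (Sp F).smul_mem _ hx
  · rw [zero_mul]
    exact (Sp F).zero_mem
  · intro x y _ _ hx hy
    rw [add_mul]
    exact (Sp F).add_mem hx hy
  · intro c x _ hx
    rw [smul_mul_assoc]
    exact (Sp F).smul_mem _ hx

lemma pow_mem' (hF : EF er F) {a : A} (ha : a ∈ Sp F) (j : ℕ) : a ^ j ∈ Sp F := by
  induction j with
  | zero => rw [pow_zero]; exact one_mem hF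
  | succ j ih => rw [pow_succ]; exact mul_mem hF ih ha

lemma prod_mem {ι : Type} (hF : EF er F) (s : Finset ι) (a : ι → A) (ha : ∀ i ∈ s, a i ∈ Sp F) :
    ∏ i ∈ s, a i ∈ Sp F :=
  Finset.prod_induction a (· ∈ Sp F) (fun _ _ => mul_mem hF) (one_mem hF) ha

lemma mrgS_mem (x : ℕ × ℕ) (hx : x.1 = 0 ∧ Even x.2 ∧ 2 ≤ x.2) (l : List (ℕ × ℕ)) : ∀ G : List (ℕ × ℕ) → A,
    EvC l → (∀ s, s.length = l.length → EvC s → G s ∈ Sp F) → mrgS x l G ∈ Sp F := by
  induction l with
  | nil =>
    intro G _ _
    exact (Sp F).zero_mem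
  | cons b l ih =>
    intro G hl hG
    have hb := hl b List.mem_cons_self
    have hl' : EvC l := fun c hc => hl c (List.mem_cons_of_mem _ hc)
    rw [mrgS]
    refine (Sp F).add_mem (hG _ (by simp) fun c hc => ?_) (ih _ hl' fun s hs hsE => hG _ (by simp [hs]) fun c hc => ?_)
    · rcases List.mem_cons.1 hc with rfl | hc
      · refine ⟨by rw [Prod.fst_add, hx.1, hb.1], ?_, ?_⟩
        · rw [Prod.snd_add]
          exact hx.2.1.add hb.2.1
        · rw [Prod.snd_add]
          omega
      · exact hl' c hc
    · rcases List.mem_cons.1 hc with rfl | hc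
      · exact hb
      · exact hsE c hc

lemma tlS_mem (x : ℕ × ℕ) (hx : x.1 = 0 ∧ Even x.2 ∧ 2 ≤ x.2) (v : List (ℕ × ℕ)) (h1 : HP v) (h2 : OK v)
    (G : List (ℕ × ℕ) → A) (hG : ∀ o, HP o → OK o → G o ∈ Sp F) : tlS x v G ∈ Sp F := by
  cases v with
  | nil => exact (Sp F).zero_mem
  | cons y v =>
    have hy : 1 ≤ y.1 := h1
    have hv : OK v := fun z hz => h2 z (List.mem_cons_of_mem _ hz)
    have hx' : OK [x] := by
      intro z hz _
      rw [List.mem_singleton] at hz
      rw [hz]
      omega
    rw [tlS]
    refine (Sp F).add_mem (hG _ ?_ ?_) (list_mem _ _ fun o ho => hG _ h1 ?_)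
    · show 1 ≤ (x + y).1
      rw [Prod.fst_add]
      omega
    · refine OK_cons (fun h => ?_) hv
      rw [Prod.fst_add] at h
      omega
    · exact OK_cons (fun h => by omega) (st_OK _ _ hx' hv o ho)

lemma AdmW_append {t v : List (ℕ × ℕ)} (ht : EvC t) (h1 : HP v) (h2 : OK v) : AdmW (t ++ v) := by
  refine ⟨fun x hx hx0 => ?_, fun x l h hx0 => ?_⟩
  · rcases List.mem_append.1 hx with hx | hx
    · have := (ht x hx).2.2
      omega
    · exact h2 x hx hx0
  · cases t with
    | nil =>
      rw [List.nil_append] at h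
      subst h
      have : 1 ≤ x.1 := h1
      omega
    | cons y t =>
      rw [List.cons_append] at h
      rw [← (List.cons.inj h).1]
      exact (ht y List.mem_cons_self).2.2

/-- the recursion -/
lemma perm_rec (hF : EF er F) (x : ℕ × ℕ) (hx : x.1 = 0 ∧ Even x.2 ∧ 2 ≤ x.2) (l v : List (ℕ × ℕ)) (hl : EvC l)
    (h1 : HP v) (h2 : OK v) : permS (x :: l) (fun t => F (t ++ v)) = F [x] * permS l (fun t => F (t ++ v)) -
      mrgS x l (fun s => permS s fun t => F (t ++ v)) - tlS x v (fun o => permS l fun t => F (t ++ o)) := by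
  have hx' : AdmW [x] := by
    refine ⟨fun z hz _ => ?_, fun z m hz _ => ?_⟩
    · rw [List.mem_singleton] at hz
      rw [hz]
      omega
    · rw [← (List.cons.inj hz).1]
      exact hx.2.2
  have h3 : F [x] * permS l (fun t => F (t ++ v)) = permS l (fun t => insS x t (fun s => F (s ++ v)) +
      mrgS x t (fun s => F (s ++ v)) + tlS x v (fun o => F (t ++ o))) := by
    rw [permS_eq, permS_eq, ← List.sum_map_mul_left]
    congr 1
    refine List.map_congr_left fun t ht => ?_
    rw [List.mem_permutations'] at ht
    have htE : EvC t := fun z hz => hl z (ht.mem_iff.1 hz)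
    rw [hF.mul _ _ hx' (AdmW_append htE h1 h2), st_ins]
  rw [h3, permS_add, permS_add, perm_mrg x l (fun s => F (s ++ v)), permS_tlS x l v (fun t o => F (t ++ o)), permS]
  abel

theorem perm_mem (hF : EF er F) : ∀ (r : ℕ) (l v : List (ℕ × ℕ)), l.length = r → EvC l → HP v → OK v →
    permS l (fun t => F (t ++ v)) ∈ Sp F := by
  intro r
  induction r with
  | zero =>
    intro l v hl _ h1 h2
    rw [List.length_eq_zero_iff] at hl
    subst hl
    exact word_mem h1 h2
  | succ r ih =>
    intro l v hl hE h1 h2
    cases l with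
    | nil => simp at hl
    | cons x l =>
      have hx := hE x List.mem_cons_self
      have hl' : EvC l := fun c hc => hE c (List.mem_cons_of_mem _ hc)
      have hlen : l.length = r := by simpa using hl
      rw [perm_rec hF x hx l v hl' h1 h2]
      refine (Sp F).sub_mem ((Sp F).sub_mem ?_ ?_) ?_
      · obtain ⟨j, hj⟩ := hx.2.1
        have hxj : x = (0, 2 * j) := Prod.ext hx.1 (by simp only; omega)
        rw [hxj, hF.euler j (by omega), smul_mul_assoc]
        exact (Sp F).smul_mem _ (pow_mul_mem _ (ih l v hlen hl' h1 h2))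
      · exact mrgS_mem x hx l _ hl' fun s hs hsE => ih s v (hs.trans hlen) hsE h1 h2
      · exact tlS_mem x hx v h1 h2 _ fun o ho1 ho2 => ih l o hlen hl' ho1 ho2

end

/-! ### the universal representation -/

/-- the families -/
structure Fam (er : ℕ → ℚ) : Type 1 where
  /-- the algebra -/
  A : Type
  /-- the ring structure -/
  [cr : CommRing A]
  /-- the algebra structure -/
  [al : Algebra ℚ A]
  /-- the function -/
  F : List (ℕ × ℕ) → A
  /-- its properties -/
  hF : EF er F

attribute [instance] Fam.cr Fam.al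

/-- the universal function -/
def univF (er : ℕ → ℚ) (w : List (ℕ × ℕ)) : ∀ i : Fam er, i.A := fun i => i.F w

lemma univ_EF (er : ℕ → ℚ) : EF er (univF er) where
  one := by
    funext i
    exact i.hF.one
  mul := fun l m hl hm => by
    funext i
    have h1 := map_list_sum (Pi.evalRingHom (fun i : Fam er => i.A) i) ((st l m).map (univF er))
    rw [List.map_map] at h1
    exact (i.hF.mul l m hl hm).trans h1.symm
  euler := fun j hj => by
    funext i
    exact i.hF.euler j hj

/-- the symmetric sum -/
def sy {A : Type u} [AddCommMonoid A] (F : List (ℕ × ℕ) → A) (q : List (ℕ × ℕ) × List (ℕ × ℕ)) : A :=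
  permS q.1 fun t => F (t ++ q.2)

lemma permS_map {α : Type} {A : Type u} {B : Type v} [AddCommMonoid A] [AddCommMonoid B] (φ : A →+ B) (l : List α)
    (G : List α → A) : φ (permS l G) = permS l fun t => φ (G t) := by
  rw [permS_eq, permS_eq, map_list_sum, List.map_map]
  rfl

/-- the patterns of the theorem -/
def Good (q : List (ℕ × ℕ) × List (ℕ × ℕ)) : Prop := EvC q.1 ∧ HP q.2 ∧ OK q.2

theorem rep (er : ℕ → ℚ) {k : ℕ} (w : Fin k → List (ℕ × ℕ) × List (ℕ × ℕ)) (hw : ∀ i, Good (w i)) (e : Fin k → ℕ) :
    ∃ K : (ℕ × List (ℕ × ℕ)) →₀ ℚ, (∀ p, K p ≠ 0 → p ∈ GS) ∧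
      ∀ (A : Type) [CommRing A] [Algebra ℚ A] (F : List (ℕ × ℕ) → A), EF er F →
        ∏ i, sy F (w i) ^ e i = K.sum fun p c => c • gen F p := by
  have h1 : ∏ i, sy (univF er) (w i) ^ e i ∈ Sp (univF er) :=
    prod_mem (univ_EF er) _ _ fun i _ => pow_mem' (univ_EF er)
      (perm_mem (univ_EF er) _ _ _ rfl (hw i).1 (hw i).2.1 (hw i).2.2) _
  rw [Sp, Finsupp.mem_span_image_iff_linearCombination] at h1
  obtain ⟨K, hK, h1⟩ := h1
  refine ⟨K, fun p hp => ?_, fun A _ _ F hF => ?_⟩
  · exact (Finsupp.mem_supported _ _).1 hK (Finsupp.mem_support_iff.2 hp)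
  · set i0 : Fam er := ⟨A, F, hF⟩ with hi0
    have h2 : (Finsupp.linearCombination ℚ (gen (univF er)) K) i0 = (∏ i, sy (univF er) (w i) ^ e i) i0 :=
      congrFun h1 i0
    rw [Finset.prod_apply, Finsupp.linearCombination_apply, Finsupp.sum, Finset.sum_apply] at h2
    refine Eq.trans (Eq.trans ?_ h2.symm) ?_
    · refine prod_congr rfl fun i _ => ?_
      rw [Pi.pow_apply]
      congr 1
      exact (permS_map (Pi.evalAddMonoidHom (fun i : Fam er => i.A) i0) (w i).1
        (fun t => univF er (t ++ (w i).2))).symm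
    · rfl

end Pool.Agent.NH83.EP
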